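import Pool.Agent.helper88.RQ2.Spec

/-!
# Project RQ, row rq:CTOP: the case of rank three
-/

set_option autoImplicit false

open Set Matroid RadonMin

namespace RadonQ2

theorem CTOP_proof (hAR1 : AR1_stmt) (hC6 : C6_stmt) (hC7S : C7S_stmt) (hC7L : C7L_stmt) (hC8 : C8_stmt) : CTOP_stmt := by
  intro V _ _ _ q X hq hr hci
  have hgood : (hh X.card : ℤ) ≤ ci X := by
    have h1 := affMat_good X (X : Set V) (by rw [affMat_E]) hr
    rw [Set.ncard_coe_finset, show (affMat X) ↾ (X : Set V) = affMat X from Matroid.restrict_ground_eq_self _] at h1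
    exact_mod_cast h1
  have h3 : 3 ≤ X.card := by
    have h1 : rk (affMat X) (X : Set V) ≤ (X : Set V).ncard := rk_le_ncard (by rw [affMat_E])
    rw [Set.ncard_coe_finset] at h1
    unfold ra at hr
    omega
  have ht := hh_tangent q X.card (by omega) h3
  have hU : UU q X.card 1 = (q.choose 2 : ℤ) * ((X.card : ℤ) - q - 2) + hh (q + 2) := by
    unfold UU
    ring
  have heq : (q.choose 2 : ℤ) * ((X.card : ℤ) - q - 2) + hh (q + 2) = hh X.card := by
    rw [hU] at hci
    linarith
  have hle : ci X ≤ hh X.card := by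
    have h1 : (ci X : ℤ) ≤ hh X.card := by
      rw [hci, hU, heq]
    exact_mod_cast h1
  have h6 : hh 6 = 7 := by decide
  have h7 : hh 7 = 17 := by decide
  rcases hAR1 q X.card hq h3 heq with hn | ⟨h5, hn⟩
  · rcases Nat.lt_or_ge q 6 with hq6 | hq6
    · rcases Nat.lt_or_ge q 5 with hq5 | hq5
      · have hq4 : q = 4 := by omega
        subst hq4
        have hn' : X.card = 6 := by omega
        rw [hn', h6] at hle
        exact Or.inr (Or.inl ⟨Or.inl rfl, hC6 V X hr hn' hle⟩)
      · have hq5' : q = 5 := by omega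
        subst hq5'
        have hn' : X.card = 7 := by omega
        rw [hn', h7] at hle
        by_cases hK : ∃ K ⊆ X, Collinear ℝ (K : Set V) ∧ 4 ≤ K.card
        · rcases hC7L V X hr hn' hle hK with h | h | h
          · exact Or.inl ⟨le_rfl, h⟩
          · exact Or.inr (Or.inr ⟨rfl, Or.inl h⟩)
          · exact Or.inr (Or.inr ⟨rfl, Or.inr (Or.inl h)⟩)
        · push Not at hK
          exact Or.inr (Or.inr ⟨rfl, Or.inr (Or.inr (hC7S V X hr hn' hle (fun K hKX hKc => by
            have := hK K hKX hKc
            omega)))⟩)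
    · have h8 := hC8 V X hr (by omega) hle
      rw [show X.card - 2 = q by omega] at h8
      exact Or.inl ⟨by omega, h8⟩
  · subst h5
    rw [hn, h6] at hle
    exact Or.inr (Or.inl ⟨Or.inr rfl, hC6 V X hr hn hle⟩)

end RadonQ2
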